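import Pool.Agent.Helper87.CA.Goals

set_option autoImplicit false

open Finset

namespace Pool.Agent.Helper49.CA

open Pool.Agent.Helper87.CA

theorem gTRIV : Pool.Agent.Helper87.CA.G_TRIV := by
  classical
  intro hSUB n k hk F _ hF2
  rcases F.eq_empty_or_nonempty with hE | ⟨f0, hf0⟩
  · subst hE
    simp only [Finset.card_empty, Nat.cast_zero]
    positivity
  let κ : (Fin n → Fin n) → Finset (Fin n × Fin n) := fun f =>
    (Vd f f0).image (fun i => (i, f i))
  have hκmem : ∀ (f : Fin n → Fin n) (i j : Fin n), (i, j) ∈ κ f ↔ (f i ≠ f0 i ∧ f i = j) := by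
    intro f i j
    simp only [κ, Finset.mem_image, Vd, Finset.mem_filter, Finset.mem_univ, true_and,
      Prod.mk.injEq]
    constructor
    · rintro ⟨a, ha, rfl, rfl⟩
      exact ⟨ha, rfl⟩
    · rintro ⟨h1, h2⟩
      exact ⟨i, h1, rfl, h2⟩
  have hinj : Function.Injective κ := by
    intro f g hfg
    funext i
    by_cases h1 : f i = f0 i
    · by_cases h2 : g i = f0 i
      · rw [h1, h2]
      · have : (i, g i) ∈ κ g := (hκmem g i (g i)).2 ⟨h2, rfl⟩
        rw [← hfg] at this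
        exact ((hκmem f i (g i)).1 this).2
    · have : (i, f i) ∈ κ f := (hκmem f i (f i)).2 ⟨h1, rfl⟩
      rw [hfg] at this
      exact ((hκmem g i (f i)).1 this).2.symm
  have hcard : F.card ≤ ((Finset.univ : Finset (Finset (Fin n × Fin n))).filter
      (fun A => A.card ≤ ⌊k⌋₊)).card := by
    apply Finset.card_le_card_of_injOn κ
    · intro f hf
      have hf' : f ∈ F := hf
      rw [Finset.mem_coe, Finset.mem_filter]
      refine ⟨Finset.mem_univ _, ?_⟩
      have h1 : (κ f).card ≤ (Vd f f0).card := Finset.card_image_le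
      exact h1.trans (Nat.le_floor (hF2 f hf' f0 hf0))
    · exact hinj.injOn
  have h2 := hSUB (Fin n × Fin n) ⌊k⌋₊
  have h3 : Fintype.card (Fin n × Fin n) = n ^ 2 := by
    rw [Fintype.card_prod, Fintype.card_fin, sq]
  rw [h3] at h2
  have h4 : F.card ≤ (n ^ 2 + 1) ^ ⌊k⌋₊ := hcard.trans h2
  calc (F.card : ℝ) ≤ (((n ^ 2 + 1) ^ ⌊k⌋₊ : ℕ) : ℝ) := by exact_mod_cast h4
    _ = ((n : ℝ) ^ 2 + 1) ^ ⌊k⌋₊ := by push_cast; ring

end Pool.Agent.Helper49.CA
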